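import Mathlib

/-!
# Functions whose increments are monotone in the length are affine
-/

namespace Pool.Agent.KS6_33.SG

/-- the increments of `α` over shorter intervals are at most those over longer intervals. -/
def Cmp (α : ℚ → ℝ) : Prop :=
  ∀ s t s' t' : ℚ, 0 ≤ s → s < t → t ≤ 1 → 0 ≤ s' → s' < t' → t' ≤ 1 → t - s < t' - s' →
    α t - α s ≤ α t' - α s'

variable {α : ℚ → ℝ}

lemma sum_tel {M : ℕ} (hM : 0 < M) :
    ∑ j ∈ Finset.range M, (α (((j + 1 : ℕ) : ℚ) / M) - α ((j : ℚ) / M)) = α 1 - α 0 := by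
  have hMq : (M : ℚ) ≠ 0 := by positivity
  have := Finset.sum_range_sub (fun j : ℕ => α ((j : ℚ) / M)) M
  rw [this, div_self hMq]
  simp

lemma step_props {N i : ℕ} (hN : 0 < N) (hi : i < N) :
    (0 : ℚ) ≤ (i : ℚ) / N ∧ (i : ℚ) / N < ((i + 1 : ℕ) : ℚ) / N ∧ ((i + 1 : ℕ) : ℚ) / N ≤ 1 ∧
      ((i + 1 : ℕ) : ℚ) / N - (i : ℚ) / N = 1 / N := by
  have hNq : (0 : ℚ) < N := by exact_mod_cast hN
  refine ⟨by positivity, ?_, ?_, ?_⟩
  · apply div_lt_div_of_pos_right _ hNq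
    push_cast; linarith
  · rw [div_le_one hNq]; exact_mod_cast hi
  · push_cast; field_simp; ring

lemma Cmp.up (hα : Cmp α) {M N i : ℕ} (hM : 0 < M) (hMN : M < N) (hi : i < N) :
    (M : ℝ) * (α (((i + 1 : ℕ) : ℚ) / N) - α ((i : ℚ) / N)) ≤ α 1 - α 0 := by
  have hN : 0 < N := hM.trans hMN
  rw [← sum_tel (α := α) hM]
  have h := Finset.card_nsmul_le_sum (Finset.range M)
    (fun j : ℕ => α (((j + 1 : ℕ) : ℚ) / M) - α ((j : ℚ) / M))
    (α (((i + 1 : ℕ) : ℚ) / N) - α ((i : ℚ) / N)) (by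
      intro j hj
      rw [Finset.mem_range] at hj
      obtain ⟨a1, a2, a3, a4⟩ := step_props hN hi
      obtain ⟨b1, b2, b3, b4⟩ := step_props hM hj
      refine hα _ _ _ _ a1 a2 a3 b1 b2 b3 ?_
      rw [a4, b4]
      have hMq : (0 : ℚ) < M := by exact_mod_cast hM
      exact one_div_lt_one_div_of_lt hMq (by exact_mod_cast hMN))
  rwa [Finset.card_range, nsmul_eq_mul] at h

lemma Cmp.down (hα : Cmp α) {M N i : ℕ} (hN : 0 < N) (hMN : N < M) (hi : i < N) :
    α 1 - α 0 ≤ (M : ℝ) * (α (((i + 1 : ℕ) : ℚ) / N) - α ((i : ℚ) / N)) := by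
  have hM : 0 < M := hN.trans hMN
  rw [← sum_tel (α := α) hM]
  have h := Finset.sum_le_card_nsmul (Finset.range M)
    (fun j : ℕ => α (((j + 1 : ℕ) : ℚ) / M) - α ((j : ℚ) / M))
    (α (((i + 1 : ℕ) : ℚ) / N) - α ((i : ℚ) / N)) (by
      intro j hj
      rw [Finset.mem_range] at hj
      obtain ⟨a1, a2, a3, a4⟩ := step_props hN hi
      obtain ⟨b1, b2, b3, b4⟩ := step_props hM hj
      refine hα _ _ _ _ b1 b2 b3 a1 a2 a3 ?_
      rw [a4, b4]
      have hNq : (0 : ℚ) < N := by exact_mod_cast hN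
      exact one_div_lt_one_div_of_lt hNq (by exact_mod_cast hMN))
  rwa [Finset.card_range, nsmul_eq_mul] at h

lemma Cmp.up_sum (hα : Cmp α) {N m : ℕ} (hN : 1 < N) (hm : m ≤ N) :
    ((N : ℝ) - 1) * (α ((m : ℚ) / N) - α 0) ≤ m * (α 1 - α 0) := by
  have e : ∑ i ∈ Finset.range m, (α (((i + 1 : ℕ) : ℚ) / N) - α ((i : ℚ) / N)) =
      α ((m : ℚ) / N) - α 0 := by
    have := Finset.sum_range_sub (fun j : ℕ => α ((j : ℚ) / N)) m
    rw [this]; simp
  rw [← e, Finset.mul_sum]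
  have h := Finset.sum_le_card_nsmul (Finset.range m)
    (fun i : ℕ => ((N : ℝ) - 1) * (α (((i + 1 : ℕ) : ℚ) / N) - α ((i : ℚ) / N)))
    (α 1 - α 0) (by
      intro i hi
      rw [Finset.mem_range] at hi
      have := hα.up (M := N - 1) (N := N) (i := i) (by omega) (by omega) (by omega)
      rwa [Nat.cast_sub (by omega), Nat.cast_one] at this)
  rwa [Finset.card_range, nsmul_eq_mul] at h

lemma Cmp.down_sum (hα : Cmp α) {N m : ℕ} (hN : 0 < N) (hm : m ≤ N) :
    m * (α 1 - α 0) ≤ ((N : ℝ) + 1) * (α ((m : ℚ) / N) - α 0) := by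
  have e : ∑ i ∈ Finset.range m, (α (((i + 1 : ℕ) : ℚ) / N) - α ((i : ℚ) / N)) =
      α ((m : ℚ) / N) - α 0 := by
    have := Finset.sum_range_sub (fun j : ℕ => α ((j : ℚ) / N)) m
    rw [this]; simp
  rw [← e, Finset.mul_sum]
  have h := Finset.card_nsmul_le_sum (Finset.range m)
    (fun i : ℕ => ((N : ℝ) + 1) * (α (((i + 1 : ℕ) : ℚ) / N) - α ((i : ℚ) / N)))
    (α 1 - α 0) (by
      intro i hi
      rw [Finset.mem_range] at hi
      have := hα.down (M := N + 1) (N := N) (i := i) (by omega) (by omega) (by omega)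
      rwa [Nat.cast_add, Nat.cast_one] at this)
  rwa [Finset.card_range, nsmul_eq_mul] at h

/-- The increments of `α` over the intervals `[0, i / N]` are the proportional ones. -/
theorem Cmp.affine (hα : Cmp α) (N : ℕ) (hN : 0 < N) (i : ℕ) (hi : i ≤ N) :
    α ((i : ℚ) / N) = α 0 + (i : ℝ) / N * (α 1 - α 0) := by
  set Δ := α 1 - α 0 with hΔ
  set X := α ((i : ℚ) / N) - α 0 with hX
  have hNr : (0 : ℝ) < N := by exact_mod_cast hN
  have key : ∀ k : ℕ, 1 < k → (k : ℝ) * |N * X - i * Δ| ≤ |X| := by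
    intro k hk
    have hkq : (k : ℚ) ≠ 0 := by positivity
    have e : ((i * k : ℕ) : ℚ) / ((N * k : ℕ) : ℚ) = (i : ℚ) / N := by
      push_cast; field_simp
    have u := hα.up_sum (N := N * k) (m := i * k) (by nlinarith) (Nat.mul_le_mul_right k hi)
    have v := hα.down_sum (N := N * k) (m := i * k) (by positivity) (Nat.mul_le_mul_right k hi)
    rw [e, ← hX, ← hΔ] at u v
    push_cast at u v
    have hk0 : (0 : ℝ) < k := by positivity
    rw [← abs_of_pos hk0, ← abs_mul]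
    have a1 := le_abs_self X
    have a2 := neg_abs_le X
    rw [abs_le]
    constructor
    · nlinarith
    · nlinarith
  have h0 : (N : ℝ) * X - i * Δ = 0 := by
    by_contra hne
    have hpos : 0 < |(N : ℝ) * X - i * Δ| := abs_pos.mpr hne
    obtain ⟨k, hk⟩ := exists_nat_gt (|X| / |(N : ℝ) * X - i * Δ|)
    rw [div_lt_iff₀ hpos] at hk
    have h1 := key (k + 2) (by omega)
    push_cast at h1
    nlinarith
  have h2 : X = (i : ℝ) / N * Δ := by
    field_simp
    linarith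
  have h3 : α ((i : ℚ) / N) = α 0 + X := by rw [hX]; ring
  rw [h3, h2]

end Pool.Agent.KS6_33.SG
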