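import Mathlib
import Pool.Graph.R_seed8.V11167.SphF

/-!
# The extent of a section in the chart at a point of the sphere

For a point `P` of the unit sphere and a unit vector `β` orthogonal to `P` the function
`Yc P β z = ⟪β, z - P⟫ / ⟪P, z - P⟫` is a coordinate of the chart in which `P` is at infinity. A
section of the ball that does not contain `P` is a Euclidean ball of this chart, so that the
interval of its values of `Yc P β` has the same length for all `β`.
-/

namespace Pool.Agent.KS6_33.SG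

open Filter Topology Pool.Agent.V11167.Sph

variable {E : Type*} [NormedAddCommGroup E] [InnerProductSpace ℝ E]

/-- The value interval of `Yc P β` on a section not containing `P` has a length which does not
depend on `β`. -/
lemma extent {P n : E} {h : ℝ} (hP : ‖P‖ = 1) (hn : ‖n‖ = 1) (h0 : 0 ≤ h) (h1 : h ≤ 1)
    (hPS : P ∉ sec n h) :
    ∃ r : ℝ, 0 ≤ r ∧ ∀ β : E, ‖β‖ = 1 → inner ℝ P β = 0 → ∃ c : ℝ,
      (∀ z ∈ sec n h, |Yc P β z - c| ≤ r) ∧
      (∃ z ∈ sec n h, Yc P β z = c + r) ∧ (∃ z ∈ sec n h, Yc P β z = c - r) := by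
  set m : ℝ := inner ℝ n P with hm
  have hδ : h - m ≠ 0 := by
    intro hc
    exact hPS (mem_sec.mpr ⟨hP.le, by rw [← hm]; linarith⟩)
  set δ : ℝ := h - m with hδd
  have hs0 : 0 ≤ 1 - h ^ 2 := by nlinarith
  refine ⟨Real.sqrt (1 - h ^ 2) / |δ|, by positivity, fun β hβ hPβ => ?_⟩
  set r : ℝ := Real.sqrt (1 - h ^ 2) / |δ| with hr
  have hr0 : 0 ≤ r := by positivity
  have hr2 : r ^ 2 = (1 - h ^ 2) / δ ^ 2 := by
    rw [hr, div_pow, Real.sq_sqrt hs0, sq_abs]
  have hβP : inner ℝ β P = 0 := by rw [real_inner_comm]; exact hPβ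
  set b : ℝ := inner ℝ β n with hb
  have hnβ : inner ℝ n β = b := by rw [hb, real_inner_comm]
  have hPn : inner ℝ P n = m := by rw [hm, real_inner_comm]
  have hnn : inner ℝ n n = (1 : ℝ) := by rw [real_inner_self_eq_norm_sq, hn]; norm_num
  have hPP : inner ℝ P P = (1 : ℝ) := by rw [real_inner_self_eq_norm_sq, hP]; norm_num
  have hββ : inner ℝ β β = (1 : ℝ) := by rw [real_inner_self_eq_norm_sq, hβ]; norm_num
  have hmd : m = h - δ := by rw [hδd]; ring
  refine ⟨-b / δ, ?_, ?_⟩
  · intro z hz
    have hz' := mem_sec.mp hz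
    have hne : z ≠ P := fun hzP => hPS (hzP ▸ hz)
    have hτ := inner_sub_neg hP hz'.1 hne
    set u := z - P with hu
    set τ : ℝ := inner ℝ P u with hτd
    have huP : inner ℝ u P = τ := by rw [hτd, real_inner_comm]
    have hnu : inner ℝ n u = δ := by rw [hu, inner_sub_right, hz'.2]
    have hun : inner ℝ u n = δ := by rw [real_inner_comm]; exact hnu
    have huu : inner ℝ u u ≤ -2 * τ := by
      have e : z = P + u := by rw [hu]; abel
      have h2 : ‖z‖ ^ 2 = 1 + 2 * τ + inner ℝ u u := by
        rw [e, @norm_add_sq ℝ, hP, real_inner_self_eq_norm_sq]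
        simp only [RCLike.re_to_real]
        rw [← hτd]; ring
      have h3 : ‖z‖ ^ 2 ≤ 1 := by
        have := norm_nonneg z
        nlinarith [hz'.1]
      linarith
    set V := u + (τ / δ) • n - (τ * h / δ) • P with hV
    have hVV : ‖V‖ ^ 2 = inner ℝ u u + 2 * τ + τ ^ 2 * r ^ 2 := by
      rw [← real_inner_self_eq_norm_sq, hV]
      simp only [inner_add_left, inner_add_right, inner_sub_left, inner_sub_right,
        inner_smul_left, inner_smul_right, conj_trivial, hnn, hPP, hnu, hun, huP, hPn,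
        ← hτd, ← hm]
      rw [hr2, hmd]
      field_simp
      ring
    have hVle : ‖V‖ ^ 2 ≤ (-τ * r) ^ 2 := by
      rw [hVV]; nlinarith
    have hVle' : ‖V‖ ≤ -τ * r :=
      abs_le_of_sq_le_sq' hVle (mul_nonneg (by linarith) hr0) |>.2
    have hβV : inner ℝ β V = inner ℝ β u + τ / δ * b := by
      rw [hV]
      simp only [inner_add_right, inner_sub_right, inner_smul_right, hβP, ← hb]
      ring
    have habs : |inner ℝ β V| ≤ -τ * r := by
      calc |inner ℝ β V| ≤ ‖β‖ * ‖V‖ := abs_real_inner_le_norm _ _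
        _ = ‖V‖ := by rw [hβ, one_mul]
        _ ≤ _ := hVle'
    have hY : Yc P β z - -b / δ = inner ℝ β V / τ := by
      have hτ0 : τ ≠ 0 := hτ.ne
      rw [hβV, Yc, ← hu, ← hτd]
      field_simp
      ring
    rw [hY, abs_div, abs_of_neg hτ, div_le_iff₀ (by linarith)]
    linarith
  · have key : ∀ ρ : ℝ, ρ ^ 2 = (1 - h ^ 2) / δ ^ 2 → ∃ z ∈ sec n h, Yc P β z = -b / δ + ρ := by
      intro ρ hρ
      set K := ρ • β + (h / δ) • P - (1 / δ) • n with hK
      have hPK : inner ℝ P K = (1 : ℝ) := by
        rw [hK]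
        simp only [inner_add_right, inner_sub_right, inner_smul_right, hPβ, hPP, hPn]
        rw [hmd]; field_simp; ring
      have hnK : inner ℝ n K = ρ * b + h / δ * m - 1 / δ := by
        rw [hK]
        simp only [inner_add_right, inner_sub_right, inner_smul_right, hnβ, hnn, ← hm]
        ring
      have hβK : inner ℝ β K = ρ - b / δ := by
        rw [hK]
        simp only [inner_add_right, inner_sub_right, inner_smul_right, hββ, hβP, ← hb]
        ring
      have hKK : inner ℝ K K = -(2 / δ) * (ρ * b + h / δ * m - 1 / δ) := by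
        have e1 : inner ℝ K K = ρ * inner ℝ β K + (h / δ) * inner ℝ P K - (1 / δ) * inner ℝ n K := by
          conv_lhs => rw [hK]
          rw [inner_sub_left, inner_add_left, inner_smul_left, inner_smul_left, inner_smul_left]
          simp only [conj_trivial]
          rw [← hK]
        rw [e1, hβK, hPK, hnK]
        have e2 : ρ * (ρ - b / δ) = ρ ^ 2 - ρ * b / δ := by ring
        rw [e2, hρ, hmd]
        field_simp
        ring
      have hK0 : K ≠ 0 := by
        intro hc
        rw [hc, inner_zero_right] at hPK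
        exact zero_ne_one hPK
      have hQ : 0 < inner ℝ K K := by
        rw [real_inner_self_eq_norm_sq]
        have := norm_pos_iff.mpr hK0
        positivity
      set Q : ℝ := inner ℝ K K with hQd
      have hnK' : inner ℝ n K = -(δ * Q / 2) := by
        rw [hKK, hnK]; field_simp
      refine ⟨P + (-(2 / Q)) • K, mem_sec.mpr ⟨?_, ?_⟩, ?_⟩
      · have h2 : ‖P + (-(2 / Q)) • K‖ ^ 2 = 1 := by
          rw [@norm_add_sq ℝ, hP, norm_smul, mul_pow, ← real_inner_self_eq_norm_sq K, ← hQd]
          simp only [RCLike.re_to_real]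
          rw [inner_smul_right, hPK, Real.norm_eq_abs, sq_abs]
          field_simp
          ring
        have h3 : ‖P + (-(2 / Q)) • K‖ ^ 2 ≤ 1 ^ 2 := by rw [h2]; norm_num
        exact le_of_pow_le_pow_left₀ (by norm_num) (by norm_num) h3
      · rw [inner_add_right, inner_smul_right, hnK', ← hm, hmd]
        field_simp
        ring
      · rw [Yc, add_sub_cancel_left, inner_smul_right, inner_smul_right, hPK, hβK]
        have : -(2 / Q) ≠ 0 := by
          apply neg_ne_zero.mpr
          positivity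
        field_simp
        ring
    refine ⟨?_, ?_⟩
    · obtain ⟨z, hz, hz'⟩ := key r hr2
      exact ⟨z, hz, hz'⟩
    · obtain ⟨z, hz, hz'⟩ := key (-r) (by rw [neg_sq]; exact hr2)
      exact ⟨z, hz, by rw [hz']; ring⟩

/-- Normalisation of a direction. -/
lemma normalise {P β : E} (hP : ‖P‖ = 1) (hβ : ∀ t : ℝ, β ≠ t • P) :
    ∃ (β' : E) (ρ κ : ℝ), ‖β'‖ = 1 ∧ inner ℝ P β' = 0 ∧ ρ ≠ 0 ∧ β = ρ • β' + κ • P := by
  set κ : ℝ := inner ℝ P β with hκ
  set w := β - κ • P with hw
  have hw0 : w ≠ 0 := fun h => hβ κ (sub_eq_zero.mp (hw ▸ h))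
  have hwn : ‖w‖ ≠ 0 := norm_ne_zero_iff.mpr hw0
  refine ⟨‖w‖⁻¹ • w, ‖w‖, κ, ?_, ?_, hwn, ?_⟩
  · rw [norm_smul, norm_inv, norm_norm, inv_mul_cancel₀ hwn]
  · rw [inner_smul_right, hw, inner_sub_right, inner_smul_right, real_inner_self_eq_norm_sq, hP,
      ← hκ]
    ring
  · rw [smul_smul, mul_inv_cancel₀ hwn, one_smul, hw]; abel

lemma co_normalise {P β β' : E} {ρ κ x : ℝ} {S : Set E} (hρ : ρ ≠ 0) (h : β = ρ • β' + κ • P)
    (hc : Co P β x S) : Co P β' ((x - κ) / ρ) S := by
  intro z hz
  rw [hc z hz, h, inner_add_left, inner_smul_left, inner_smul_left]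
  simp only [conj_trivial]
  constructor
  · intro e
    field_simp
    linarith
  · intro e
    field_simp at e
    linarith

end Pool.Agent.KS6_33.SG
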