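import Mathlib
import Pool.Graph.R_seed8.V11167.SphA

/-!
# A `d`-sphere graph is an `e`-sphere graph for all `e ≥ d`
-/

namespace Pool.Agent.KS6_33.SG

open Pool.Agent.V11167.Sph

/-- A linear isometric embedding. -/
lemma exists_emb {d e : ℕ} (h : d ≤ e) :
    Nonempty (EuclideanSpace ℝ (Fin (d + 1)) →ₗᵢ[ℝ] EuclideanSpace ℝ (Fin (e + 1))) := by
  have hv : Orthonormal ℝ (EuclideanSpace.basisFun (Fin (d + 1)) ℝ).toBasis := by
    rw [OrthonormalBasis.coe_toBasis]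
    exact (EuclideanSpace.basisFun (Fin (d + 1)) ℝ).orthonormal
  have hw : Orthonormal ℝ (fun i : Fin (d + 1) =>
      (EuclideanSpace.basisFun (Fin (e + 1)) ℝ) (Fin.castLE (by omega) i)) :=
    (EuclideanSpace.basisFun (Fin (e + 1)) ℝ).orthonormal.comp _ (Fin.castLE_injective _)
  have hf : Orthonormal ℝ (((EuclideanSpace.basisFun (Fin (d + 1)) ℝ).toBasis.constr ℝ
      (fun i : Fin (d + 1) => (EuclideanSpace.basisFun (Fin (e + 1)) ℝ)
        (Fin.castLE (by omega) i))) ∘ (EuclideanSpace.basisFun (Fin (d + 1)) ℝ).toBasis) := by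
    have e1 : (((EuclideanSpace.basisFun (Fin (d + 1)) ℝ).toBasis.constr ℝ
      (fun i : Fin (d + 1) => (EuclideanSpace.basisFun (Fin (e + 1)) ℝ)
        (Fin.castLE (by omega) i))) ∘ (EuclideanSpace.basisFun (Fin (d + 1)) ℝ).toBasis) =
        fun i : Fin (d + 1) => (EuclideanSpace.basisFun (Fin (e + 1)) ℝ)
        (Fin.castLE (by omega) i) := by
      funext i
      simp only [Function.comp_apply, Module.Basis.constr_basis]
    rw [e1]; exact hw
  exact ⟨LinearMap.isometryOfOrthonormal _ hv hf⟩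

variable {E E' : Type*} [NormedAddCommGroup E] [InnerProductSpace ℝ E] [CompleteSpace E]
  [NormedAddCommGroup E'] [InnerProductSpace ℝ E'] [CompleteSpace E']

/-- the adjoint of the embedding -/
noncomputable def adj (J : E →ₗᵢ[ℝ] E') : E' →L[ℝ] E :=
  ContinuousLinearMap.adjoint J.toContinuousLinearMap

lemma adj_inner (J : E →ₗᵢ[ℝ] E') (n : E) (x : E') : inner ℝ n (adj J x) = inner ℝ (J n) x :=
  ContinuousLinearMap.adjoint_inner_right _ _ _

lemma adj_emb (J : E →ₗᵢ[ℝ] E') (z : E) : adj J (J z) = z := by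
  apply ext_inner_left ℝ
  intro v
  rw [adj_inner, J.inner_map_map]

lemma adj_norm (J : E →ₗᵢ[ℝ] E') (x : E') : ‖adj J x‖ ≤ ‖x‖ := by
  have h1 : ‖adj J x‖ * ‖adj J x‖ ≤ ‖adj J x‖ * ‖x‖ := by
    calc ‖adj J x‖ * ‖adj J x‖ = inner ℝ (adj J x) (adj J x) := by
          rw [real_inner_self_eq_norm_mul_norm]
      _ = inner ℝ (J (adj J x)) x := adj_inner J _ _
      _ ≤ ‖J (adj J x)‖ * ‖x‖ := real_inner_le_norm _ _
      _ = ‖adj J x‖ * ‖x‖ := by rw [J.norm_map]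
  rcases (norm_nonneg (adj J x)).lt_or_eq with h | h
  · exact le_of_mul_le_mul_left h1 h
  · rw [← h]; exact norm_nonneg x

/-- the cylinder over a set -/
def cyl (J : E →ₗᵢ[ℝ] E') (S : Set E) : Set E' := Metric.closedBall 0 1 ∩ {x | adj J x ∈ S}

lemma cyl_sec (J : E →ₗᵢ[ℝ] E') (n : E) (c : ℝ) : cyl J (sec n c) = sec (J n) c := by
  ext x
  rw [mem_sec]
  simp only [cyl, Set.mem_inter_iff, mem_closedBall_zero_iff, Set.mem_ofPred_eq, mem_sec,
    adj_inner]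
  constructor
  · rintro ⟨h1, -, h2⟩; exact ⟨h1, h2⟩
  · rintro ⟨h1, h2⟩; exact ⟨h1, (adj_norm J x).trans h1, h2⟩

lemma emb_mem_cyl (J : E →ₗᵢ[ℝ] E') {S : Set E} (hS : S ⊆ Metric.closedBall 0 1) {z : E} :
    J z ∈ cyl J S ↔ z ∈ S := by
  simp only [cyl, Set.mem_inter_iff, mem_closedBall_zero_iff, Set.mem_ofPred_eq, adj_emb,
    J.norm_map]
  constructor
  · exact fun h => h.2
  · exact fun h => ⟨by simpa using hS h, h⟩

lemma cyl_meet (J : E →ₗᵢ[ℝ] E') {S T : Set E} (hS : S ⊆ Metric.closedBall 0 1)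
    (hT : T ⊆ Metric.closedBall 0 1) : (cyl J S ∩ cyl J T).Nonempty ↔ (S ∩ T).Nonempty := by
  constructor
  · rintro ⟨x, hx, hx'⟩
    exact ⟨adj J x, hx.2, hx'.2⟩
  · rintro ⟨z, hz, hz'⟩
    exact ⟨J z, (emb_mem_cyl J hS).mpr hz, (emb_mem_cyl J hT).mpr hz'⟩

lemma cyl_inj (J : E →ₗᵢ[ℝ] E') {S T : Set E} (hS : S ⊆ Metric.closedBall 0 1)
    (hT : T ⊆ Metric.closedBall 0 1) (h : cyl J S = cyl J T) : S = T := by
  ext z
  rw [← emb_mem_cyl J hS, h, emb_mem_cyl J hT]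

/-- **Monotonicity in the dimension.** -/
theorem lift_dim {d e : ℕ} (h : d ≤ e) {V : Type*} {G : SimpleGraph V}
    (hG : IsSphereGraph d G) : IsSphereGraph e G := by
  obtain ⟨F, hF, ⟨g⟩⟩ := hG
  obtain ⟨J⟩ := exists_emb h
  have hsub : ∀ S ∈ F, S ⊆ Metric.closedBall 0 1 := by
    intro S hS
    obtain ⟨n, c, -, hs⟩ := hF hS
    rw [hs]
    exact Set.inter_subset_left
  refine ⟨cyl J '' F, ?_, ⟨g.trans ?_⟩⟩
  · rintro _ ⟨S, hS, rfl⟩
    obtain ⟨n, c, hn, hs⟩ := hF hS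
    refine ⟨J n, c, ?_, ?_⟩
    · intro h0
      exact hn (J.injective (by rw [h0, map_zero]))
    · rw [hs]; exact cyl_sec J n c
  · let f : F → (cyl J '' F : Set _) := fun S => ⟨cyl J S.1, Set.mem_image_of_mem _ S.2⟩
    have hf : Function.Bijective f := by
      constructor
      · intro S T hST
        exact Subtype.ext (cyl_inj J (hsub _ S.2) (hsub _ T.2) (congrArg Subtype.val hST))
      · rintro ⟨_, S, hS, rfl⟩
        exact ⟨⟨S, hS⟩, rfl⟩
    refine ⟨Equiv.ofBijective f hf, ?_⟩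
    intro S T
    show (f S ≠ f T ∧ (cyl J S.1 ∩ cyl J T.1).Nonempty) ↔ (S ≠ T ∧ (S.1 ∩ T.1).Nonempty)
    rw [cyl_meet J (hsub _ S.2) (hsub _ T.2), hf.1.ne_iff]

end Pool.Agent.KS6_33.SG
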