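import Mathlib
import Pool.Graph.R_seed8.V11167.SphI

/-!
# Realisations of the graph `fam3 lam` by sections of a ball of any dimension

`fam3 lam` (all rational circles, all rational lines and the line `x = lam`) and the lemmas on its
incidences are those of the library module `Pool.Graph.R_seed8.V11167.Sph*`, where realisations in
the ball of `ℝ³` are studied. Here the realisations take place in the unit ball of an arbitrary
finite-dimensional real inner product space `E`.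
-/

namespace Pool.Agent.KS6_33.SG

open Filter Topology Pool.Agent.V11167.Sph

variable {E : Type*} [NormedAddCommGroup E] [InnerProductSpace ℝ E]

/-- A realisation of the intersection graph of `fam3 lam` by hyperplane sections of the unit ball
of `E`. -/
structure Rg (lam : ℝ) (Φ : Set E3 → Set E) : Prop where
  isSec : ∀ A ∈ fam3 lam, ∃ (n : E) (c : ℝ), n ≠ 0 ∧ Φ A = sec n c
  inj : ∀ A ∈ fam3 lam, ∀ B ∈ fam3 lam, A ≠ B → Φ A ≠ Φ B
  meet : ∀ A ∈ fam3 lam, ∀ B ∈ fam3 lam, A ≠ B → (A ∩ B).Nonempty → (Φ A ∩ Φ B).Nonempty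
  disj : ∀ A ∈ fam3 lam, ∀ B ∈ fam3 lam, A ≠ B → ¬ (A ∩ B).Nonempty → ¬ (Φ A ∩ Φ B).Nonempty

variable {lam : ℝ} {Φ : Set E3 → Set E}

lemma Rg.nonempty (R : Rg lam Φ) (hl0 : 0 < lam) (hl1 : lam < 1) {A : Set E3} (hA : A ∈ fam3 lam) :
    (Φ A).Nonempty := by
  have hA' := hA
  rcases hA with ⟨a, b, r, hr, rfl⟩ | ⟨p, q, e, h, rfl⟩ | rfl
  · have h1 := R.meet _ hA' _ (line_fam lam 1 0 a (by norm_num)) (line_ne_circ _ _ _ _ _ _).symm
      (by rw [Set.inter_comm]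
          apply lc_meet
          · norm_num
          · push_cast
            have : (0 : ℝ) ≤ (r : ℝ) ^ 2 := sq_nonneg _
            nlinarith)
    exact h1.mono Set.inter_subset_left
  · have hN : (0 : ℝ) < (p : ℝ) ^ 2 + (q : ℝ) ^ 2 := by exact_mod_cast h
    have h1 := R.meet _ hA' _ (circ_fam lam (p * e / (p ^ 2 + q ^ 2)) (q * e / (p ^ 2 + q ^ 2)) 1
      (by norm_num)) (line_ne_circ _ _ _ _ _ _)
      (by apply lc_meet hN
          push_cast
          have : (p : ℝ) * (p * e / (p ^ 2 + q ^ 2)) + q * (q * e / (p ^ 2 + q ^ 2)) - e = 0 := by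
            field_simp; ring
          rw [this, zero_pow (by norm_num)]
          positivity)
    exact h1.mono Set.inter_subset_left
  · have h1 := R.meet _ hA' _ (circ_fam lam 0 0 1 (by norm_num)) (line_ne_circ _ _ _ _ _ _)
      (by apply lc_meet
          · norm_num
          · push_cast
            nlinarith)
    exact h1.mono Set.inter_subset_left

lemma Rg.meet' (R : Rg lam Φ) (hl0 : 0 < lam) (hl1 : lam < 1) {A B : Set E3} (hA : A ∈ fam3 lam)
    (hB : B ∈ fam3 lam) (h : (A ∩ B).Nonempty) : (Φ A ∩ Φ B).Nonempty := by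
  by_cases hAB : A = B
  · subst hAB; rw [Set.inter_self]; exact R.nonempty hl0 hl1 hA
  · exact R.meet A hA B hB hAB h

lemma Rg.disj' (R : Rg lam Φ) {A B : Set E3} (hA : A ∈ fam3 lam)
    (hB : B ∈ fam3 lam) (h : ¬ (A ∩ B).Nonempty) : ¬ (Φ A ∩ Φ B).Nonempty := by
  have hAB : A ≠ B := by
    rintro rfl
    rw [Set.inter_self] at h
    exact h (fam_nonempty hA)
  exact R.disj A hA B hB hAB h

lemma Rg.normal (R : Rg lam Φ) (hl0 : 0 < lam) (hl1 : lam < 1) {A : Set E3} (hA : A ∈ fam3 lam) :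
    ∃ (n : E) (h : ℝ), ‖n‖ = 1 ∧ 0 ≤ h ∧ h ≤ 1 ∧ Φ A = sec n h := by
  obtain ⟨n, c, hn, hs⟩ := R.isSec A hA
  obtain ⟨n', h, hn', h0, hs'⟩ := exists_normal hn c
  refine ⟨n', h, hn', h0, ?_, hs.trans hs'⟩
  have := R.nonempty hl0 hl1 hA
  rw [hs, hs'] at this
  exact height_le_one hn' this

lemma Rg.sub (R : Rg lam Φ) {A : Set E3} (hA : A ∈ fam3 lam) :
    Φ A ⊆ Metric.closedBall 0 1 := by
  obtain ⟨n, c, hn, hs⟩ := R.isSec A hA
  rw [hs]; exact sec_sub_ball _ _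

lemma Rg.convex (R : Rg lam Φ) {A : Set E3} (hA : A ∈ fam3 lam) : Convex ℝ (Φ A) := by
  obtain ⟨n, c, hn, hs⟩ := R.isSec A hA
  rw [hs]; exact sec_convex _ _

variable [FiniteDimensional ℝ E]

lemma Rg.cpt (R : Rg lam Φ) {A : Set E3} (hA : A ∈ fam3 lam) : IsCompact (Φ A) := by
  obtain ⟨n, c, hn, hs⟩ := R.isSec A hA
  rw [hs]; exact sec_isCompact _ _

lemma Rg.beads (R : Rg lam Φ) (hl0 : 0 < lam) (hl1 : lam < 1) {x0 y0 dx dy ℓ : ℚ} (hℓ : 0 < ℓ)
    (hl : ℓ ^ 2 = dx ^ 2 + dy ^ 2) {p r : ℕ → ℚ}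
    (hr : ∀ k, 0 < r k) (hsep : ∀ i j, i ≠ j → r i + r j < ℓ * |p i - p j|) :
    ∃ n : ℕ → E, (∀ k, ‖n k‖ = 1) ∧
      ∀ ε > 0, ∀ᶠ k in atTop, ∀ x ∈ Φ (bd x0 y0 dx dy p r k), ‖x - n k‖ < ε := by
  choose n h hn h0 h1 hs using fun k =>
    R.normal hl0 hl1 (bd_fam lam x0 y0 dx dy p r k (hr k))
  refine ⟨n, hn, ?_⟩
  have key := bead n h hn h0 (fun k => by
      rw [← hs k]; exact R.nonempty hl0 hl1 (bd_fam lam x0 y0 dx dy p r k (hr k)))
    (fun i j hij => by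
      rw [← hs i, ← hs j]
      exact R.disj' (bd_fam lam x0 y0 dx dy p r i (hr i)) (bd_fam lam x0 y0 dx dy p r j (hr j))
        (bd_disj hℓ hl hr hsep hij))
    (by
      intro i j l hij hil hjl
      have hRpos : 0 < ℓ * |p j - p l| / 2 := by
        have := hsep j l hjl
        have := hr j
        have := hr l
        linarith
      set Z : Set E3 := circ ((x0 + dx * ((p j + p l) / 2) : ℚ) : ℝ)
        ((y0 + dy * ((p j + p l) / 2) : ℚ) : ℝ) ((ℓ * |p j - p l| / 2 : ℚ) : ℝ) with hZ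
      have hZf : Z ∈ fam3 lam := circ_fam _ _ _ _ hRpos
      have hsq : (ℓ * |p j - p l| / 2) ^ 2 = (dx ^ 2 + dy ^ 2) * (p j - p l) ^ 2 / 4 := by
        rw [div_pow, mul_pow, sq_abs, hl]; ring
      have meetaux : ∀ m : ℕ, (m = j ∨ m = l) → (Z ∩ bd x0 y0 dx dy p r m).Nonempty := by
        intro m hm
        have hDq : (x0 + dx * ((p j + p l) / 2) - (x0 + dx * p m)) ^ 2 +
            (y0 + dy * ((p j + p l) / 2) - (y0 + dy * p m)) ^ 2 = (ℓ * |p j - p l| / 2) ^ 2 := by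
          rw [hsq]
          rcases hm with rfl | rfl <;> ring
        have hDr : (((x0 + dx * ((p j + p l) / 2) : ℚ) : ℝ) - ((x0 + dx * p m : ℚ) : ℝ)) ^ 2 +
            (((y0 + dy * ((p j + p l) / 2) : ℚ) : ℝ) - ((y0 + dy * p m : ℚ) : ℝ)) ^ 2 =
            ((ℓ * |p j - p l| / 2 : ℚ) : ℝ) ^ 2 := by exact_mod_cast hDq
        have hRr : (0 : ℝ) < ((ℓ * |p j - p l| / 2 : ℚ) : ℝ) := by exact_mod_cast hRpos
        have hrm : (0 : ℝ) < ((r m : ℚ) : ℝ) := by exact_mod_cast hr m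
        have hle : ((r m : ℚ) : ℝ) ≤ 2 * ((ℓ * |p j - p l| / 2 : ℚ) : ℝ) := by
          have : r m ≤ 2 * (ℓ * |p j - p l| / 2) := by
            have h1 := hsep j l hjl
            have h2 := hr j
            have h3 := hr l
            rcases hm with rfl | rfl <;> linarith
          exact_mod_cast this
        apply cc_meet
        · rw [hDr]; positivity
        · rw [hDr]; nlinarith
        · rw [hDr]; nlinarith
      refine ⟨Φ Z, R.convex hZf, R.sub hZf, ?_, ?_, ?_⟩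
      · rw [← hs j]
        exact R.meet' hl0 hl1 hZf (bd_fam lam x0 y0 dx dy p r j (hr j)) (meetaux j (Or.inl rfl))
      · rw [← hs l]
        exact R.meet' hl0 hl1 hZf (bd_fam lam x0 y0 dx dy p r l (hr l)) (meetaux l (Or.inr rfl))
      · rw [← hs i]
        refine R.disj' hZf (bd_fam lam x0 y0 dx dy p r i (hr i)) ?_
        intro hm
        have h2 := cc_of_meet (by exact_mod_cast hRpos.le) (by exact_mod_cast (hr i).le) hm
        have hui : r i < |ℓ * (p i - p j)| := by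
          rw [abs_mul, abs_of_pos hℓ]
          have h1 := hsep i j hij
          have h3 := hr j
          linarith
        have hvi : r i < |ℓ * (p i - p l)| := by
          rw [abs_mul, abs_of_pos hℓ]
          have h1 := hsep i l hil
          have h3 := hr l
          linarith
        have hDq : (x0 + dx * ((p j + p l) / 2) - (x0 + dx * p i)) ^ 2 +
            (y0 + dy * ((p j + p l) / 2) - (y0 + dy * p i)) ^ 2 =
            ((ℓ * (p i - p j) + ℓ * (p i - p l)) / 2) ^ 2 := by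
          have : ((ℓ * (p i - p j) + ℓ * (p i - p l)) / 2) ^ 2 =
            ℓ ^ 2 * ((p i - p j + (p i - p l)) / 2) ^ 2 := by ring
          rw [this, hl]; ring
        have hDr : (((x0 + dx * ((p j + p l) / 2) : ℚ) : ℝ) - ((x0 + dx * p i : ℚ) : ℝ)) ^ 2 +
            (((y0 + dy * ((p j + p l) / 2) : ℚ) : ℝ) - ((y0 + dy * p i : ℚ) : ℝ)) ^ 2 =
            ((((ℓ * (p i - p j) : ℚ) : ℝ) + ((ℓ * (p i - p l) : ℚ) : ℝ)) / 2) ^ 2 := by
          exact_mod_cast hDq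
        rw [hDr] at h2
        refine real_aux (u := ((ℓ * (p i - p j) : ℚ) : ℝ)) (v := ((ℓ * (p i - p l) : ℚ) : ℝ))
          (r := ((r i : ℚ) : ℝ)) (by exact_mod_cast hr i) (by exact_mod_cast hui)
          (by exact_mod_cast hvi) ?_ h2
        have : ℓ * |p j - p l| / 2 = |ℓ * (p i - p j) - ℓ * (p i - p l)| / 2 := by
          have e : ℓ * (p i - p j) - ℓ * (p i - p l) = ℓ * -(p j - p l) := by ring
          rw [e, abs_mul, abs_neg, abs_of_pos hℓ]
        exact_mod_cast this)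
  intro ε hε
  filter_upwards [key (1 - ε ^ 2 / 2) (by nlinarith)] with k hk x hx
  rw [hs k] at hx
  exact sec_near (hn k) hε hk hx

lemma Rg.exists_P (R : Rg lam Φ) (hl0 : 0 < lam) (hl1 : lam < 1) :
    ∃ (P : E) (φ : ℕ → ℕ), ‖P‖ = 1 ∧ StrictMono φ ∧
      ∀ ε > 0, ∀ᶠ k in atTop, ∀ x ∈ Φ (Yb (φ k)), ‖x - P‖ < ε := by
  obtain ⟨n, hn, hsm⟩ := R.beads hl0 hl1 (x0 := 0) (y0 := 0) (dx := 4) (dy := 3) (ℓ := 5)
    (by norm_num) (by norm_num) rY_pos sepY
  obtain ⟨P, hP, φ, hφ, hlim⟩ := (isCompact_sphere (0 : E) 1).tendsto_subseq (x := n)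
    (fun k => by simp [hn])
  refine ⟨P, φ, by simpa using hP, hφ, ?_⟩
  intro ε hε
  have h1 := hφ.tendsto_atTop.eventually (hsm (ε / 2) (by linarith))
  have h2 := (Metric.tendsto_nhds.mp hlim) (ε / 2) (by linarith)
  filter_upwards [h1, h2] with k hk1 hk2 x hx
  have e : x - P = (x - n (φ k)) + (n (φ k) - P) := by abel
  rw [e]
  rw [Function.comp, dist_eq_norm] at hk2
  have := hk1 x hx
  have := norm_add_le (x - n (φ k)) (n (φ k) - P)
  linarith

/-- Data attached to a realisation: the point `P` and the subsequence. -/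
structure GData (Φ : Set E3 → Set E) (P : E) (φ : ℕ → ℕ) : Prop where
  norm : ‖P‖ = 1
  mono : StrictMono φ
  lim : ∀ ε > 0, ∀ᶠ k in atTop, ∀ x ∈ Φ (Yb (φ k)), ‖x - P‖ < ε

variable {P : E} {φ : ℕ → ℕ}

lemma gP_mem (R : Rg lam Φ) (hl0 : 0 < lam) (hl1 : lam < 1) (D : GData Φ P φ) {A : Set E3}
    (hA : A ∈ fam3 lam) (h : ∀ k, (A ∩ Yb k).Nonempty) : P ∈ Φ A := by
  have h1 : ∀ k, (Φ A ∩ Φ (Yb (φ k))).Nonempty := fun k => R.meet' hl0 hl1 hA (Yb_fam _ _) (h _)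
  choose x hx hx' using h1
  have hlim : Tendsto x atTop (𝓝 P) := by
    rw [Metric.tendsto_nhds]
    intro ε hε
    filter_upwards [D.lim ε hε] with k hk
    rw [dist_eq_norm]; exact hk _ (hx' k)
  exact (R.cpt hA).isClosed.mem_of_tendsto hlim (Eventually.of_forall hx)

lemma g_ne_P (R : Rg lam Φ) (hl0 : 0 < lam) (hl1 : lam < 1) (P : E) {A : Set E3}
    (hA : A ∈ fam3 lam) (h : ∀ k, (A ∩ Yb k).Nonempty) : ∃ z ∈ Φ A, z ≠ P := by
  obtain ⟨x, hx, hx'⟩ := R.meet' hl0 hl1 hA (Yb_fam _ 0) (h 0)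
  obtain ⟨y, hy, hy'⟩ := R.meet' hl0 hl1 hA (Yb_fam _ 1) (h 1)
  by_cases hxP : x = P
  · refine ⟨y, hy, ?_⟩
    rintro rfl
    subst hxP
    exact R.disj' (Yb_fam _ 0) (Yb_fam _ 1) (Yb_disj (by norm_num)) ⟨_, hx', hy'⟩
  · exact ⟨x, hx, hxP⟩

lemma gdir (R : Rg lam Φ) (hl0 : 0 < lam) (hl1 : lam < 1) (D : GData Φ P φ) (A : ℕ → Set E3)
    (hA : ∀ n, A n ∈ fam3 lam) (hm : ∀ k, ∀ᶠ n in atTop, (A n ∩ Yb k).Nonempty) :
    ∃ β : E, (∀ t : ℝ, β ≠ t • P) ∧ ∀ L ∈ fam3 lam, (∀ k, (L ∩ Yb k).Nonempty) →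
      (∀ n, ¬ (L ∩ A n).Nonempty) → ∀ (σ : E) (c : ℝ), Φ L = sec σ c →
      ∃ x y : ℝ, y ≠ 0 ∧ β = x • P + y • σ := by
  choose α a hα h0 h1 hs using fun n => R.normal hl0 hl1 (hA n)
  obtain ⟨β, hβ, H⟩ := fam D.norm (fun k => Φ (Yb (φ k))) (fun k => R.cpt (Yb_fam _ _))
    (fun k => R.sub (Yb_fam _ _))
    (fun i j hij => R.disj' (Yb_fam _ _) (Yb_fam _ _)
      (Yb_disj (fun h => hij (D.mono.injective h)))) D.lim α a hα h0 h1
    (by
      intro k
      filter_upwards [hm (φ k)] with n hn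
      rw [← hs n]
      exact R.meet' hl0 hl1 (hA n) (Yb_fam _ _) hn)
  refine ⟨β, hβ, ?_⟩
  intro L hL hLY hLA σ c hσ
  refine H σ c ?_ ?_ ?_
  · rw [← hσ]; exact gP_mem R hl0 hl1 D hL hLY
  · rw [← hσ]; exact g_ne_P R hl0 hl1 P hL hLY
  · intro n
    rw [← hσ, ← hs n]
    exact R.disj' hL (hA n) (hLA n)

lemma gdir_co (R : Rg lam Φ) (hl0 : 0 < lam) (hl1 : lam < 1) (D : GData Φ P φ) {L : Set E3}
    (hL : L ∈ fam3 lam) (hLY : ∀ k, (L ∩ Yb k).Nonempty) {β : E}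
    (h : ∀ (σ : E) (c : ℝ), Φ L = sec σ c → ∃ x y : ℝ, y ≠ 0 ∧ β = x • P + y • σ) :
    ∃ x : ℝ, Co P β x (Φ L) := by
  obtain ⟨σ, c, -, hs⟩ := R.isSec L hL
  obtain ⟨x, y, hy, hxy⟩ := h σ c hs
  refine ⟨x, fun z hz => ?_⟩
  have hPL := gP_mem R hl0 hl1 D hL hLY
  rw [hs] at hPL ⊢
  exact on_iff hPL hy hxy hz

end Pool.Agent.KS6_33.SG
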