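import Mathlib
import Pool.Agent.KS6_33.SG.Real
import Pool.Agent.KS6_33.SG.Extent
import Pool.Agent.KS6_33.SG.Affine

/-!
# Rigidity of the realisations of `fam3 lam` in every dimension

The coordinate `a s` of the section `Φ (VL s)` in its pencil is an affine function of the rational
number `s`: a circle whose diameter is at least the distance of two vertical lines and smaller than
the distance of two horizontal ones has the same extent in both directions, so that the increments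
of `a` are monotone functions of the length.
-/

namespace Pool.Agent.KS6_33.SG

open Filter Topology Pool.Agent.V11167.Sph

section abs
variable {E : Type*} [NormedAddCommGroup E] [InnerProductSpace ℝ E]

lemma co_unique {P β : E} {x : ℝ} {S T : Set E} (hS : Co P β x S) (hT : Co P β x T)
    (hSB : S ⊆ Metric.closedBall 0 1) (hTB : T ⊆ Metric.closedBall 0 1) : S = T := by
  ext z
  constructor
  · intro h
    have hz : ‖z‖ ≤ 1 := by simpa using hSB h
    exact (hT z hz).mpr ((hS z hz).mp h)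
  · intro h
    have hz : ‖z‖ ≤ 1 := by simpa using hTB h
    exact (hS z hz).mpr ((hT z hz).mp h)

end abs

lemma circV {a b r x : ℝ} : (circ a b r ∩ line 1 0 x).Nonempty ↔ (a - x) ^ 2 ≤ r ^ 2 := by
  rw [Set.inter_comm]
  constructor
  · intro h
    have := lc_of_meet h
    ring_nf at this ⊢
    linarith
  · intro h
    apply lc_meet (by norm_num)
    ring_nf at h ⊢
    linarith

lemma circH {a b r x : ℝ} : (circ a b r ∩ line 0 1 x).Nonempty ↔ (b - x) ^ 2 ≤ r ^ 2 := by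
  rw [Set.inter_comm]
  constructor
  · intro h
    have := lc_of_meet h
    ring_nf at this ⊢
    linarith
  · intro h
    apply lc_meet (by norm_num)
    ring_nf at h ⊢
    linarith

variable {E : Type*} [NormedAddCommGroup E] [InnerProductSpace ℝ E] [FiniteDimensional ℝ E]
variable {lam : ℝ} {Φ : Set E3 → Set E} {P : E} {φ : ℕ → ℕ}

/-- The coordinates of the vertical and of the horizontal lines. -/
lemma coords (R : Rg lam Φ) (hl0 : 0 < lam) (hl1 : lam < 1) (D : GData Φ P φ)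
    (σ : E) (c : ℝ) (hσ : Φ (VL 0) = sec σ c) :
    ∃ (βV βH : E) (a b : ℚ → ℝ) (al x0 y0 : ℝ),
      ‖βV‖ = 1 ∧ inner ℝ P βV = 0 ∧ ‖βH‖ = 1 ∧ inner ℝ P βH = 0 ∧
      (∀ s : ℚ, -10 ≤ s → s ≤ 10 → Co P βV (a s) (Φ (VL s))) ∧
      (∀ s : ℚ, -10 ≤ s → s ≤ 10 → Co P βH (b s) (Φ (HL s))) ∧
      Co P βV al (Φ (line 1 0 lam)) ∧ y0 ≠ 0 ∧ βV = x0 • P + y0 • σ := by
  obtain ⟨βV, hV, HV⟩ := gdir R hl0 hl1 D vA (vA_fam lam) vA_Yb
  obtain ⟨βH, hH, HH⟩ := gdir R hl0 hl1 D hA (hA_fam lam) hA_Yb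
  have eV : ∀ s : ℚ, ∃ x : ℝ, -10 ≤ s → s ≤ 10 → Co P βV x (Φ (VL s)) := by
    intro s
    by_cases h1 : -10 ≤ s
    · by_cases h2 : s ≤ 10
      · have g1 : (-10 : ℝ) ≤ s := by exact_mod_cast h1
        have g2 : (s : ℝ) ≤ 10 := by exact_mod_cast h2
        obtain ⟨x, hx⟩ := gdir_co R hl0 hl1 D (VL_fam lam s) (V_Yb g1 g2)
          (HV _ (VL_fam lam s) (V_Yb g1 g2) (vA_V g1))
        exact ⟨x, fun _ _ => hx⟩
      · exact ⟨0, fun _ h => absurd h h2⟩
    · exact ⟨0, fun h => absurd h h1⟩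
  have eH : ∀ s : ℚ, ∃ x : ℝ, -10 ≤ s → s ≤ 10 → Co P βH x (Φ (HL s)) := by
    intro s
    by_cases h1 : -10 ≤ s
    · by_cases h2 : s ≤ 10
      · have g1 : (-10 : ℝ) ≤ s := by exact_mod_cast h1
        have g2 : (s : ℝ) ≤ 10 := by exact_mod_cast h2
        obtain ⟨x, hx⟩ := gdir_co R hl0 hl1 D (HL_fam lam s) (H_Yb g1 g2)
          (HH _ (HL_fam lam s) (H_Yb g1 g2) (hA_H g1))
        exact ⟨x, fun _ _ => hx⟩
      · exact ⟨0, fun _ h => absurd h h2⟩
    · exact ⟨0, fun h => absurd h h1⟩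
  choose a ha using eV
  choose b hb using eH
  obtain ⟨al, hal⟩ := gdir_co R hl0 hl1 D (lam_fam lam) (V_Yb (by linarith) (by linarith))
    (HV _ (lam_fam lam) (V_Yb (by linarith) (by linarith)) (vA_V (by linarith)))
  obtain ⟨x0, y0, hy0, hxy⟩ := HV _ (VL_fam lam 0) (V_Yb (by norm_num) (by norm_num))
    (vA_V (by norm_num)) σ c hσ
  obtain ⟨γV, ρV, κV, n1, o1, r1, d1⟩ := normalise D.norm hV
  obtain ⟨γH, ρH, κH, n2, o2, r2, d2⟩ := normalise D.norm hH
  refine ⟨γV, γH, fun s => (a s - κV) / ρV, fun s => (b s - κH) / ρH, (al - κV) / ρV,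
    (x0 - κV) / ρV, y0 / ρV, n1, o1, n2, o2, ?_, ?_, co_normalise r1 d1 hal, div_ne_zero hy0 r1, ?_⟩
  · intro s h1 h2
    exact co_normalise r1 d1 (ha s h1 h2)
  · intro s h1 h2
    exact co_normalise r2 d2 (hb s h1 h2)
  · have e : ρV • γV = (x0 - κV) • P + y0 • σ := by
      have : ρV • γV = βV - κV • P := by rw [d1]; abel
      rw [this, hxy, sub_smul]; abel
    calc γV = ρV⁻¹ • (ρV • γV) := by rw [smul_smul, inv_mul_cancel₀ r1, one_smul]
      _ = ((x0 - κV) / ρV) • P + (y0 / ρV) • σ := by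
        rw [e, smul_add, smul_smul, smul_smul, div_eq_inv_mul, div_eq_inv_mul]

/-- Strict monotonicity of the coordinates of a family of parallel lines. -/
lemma mono_gen (R : Rg lam Φ) (hl0 : 0 < lam) (hl1 : lam < 1) (hP : ‖P‖ = 1)
    {β : E} {L : ℚ → Set E3} {a : ℚ → ℝ} (hL : ∀ s, L s ∈ fam3 lam)
    (ha : ∀ s : ℚ, -10 ≤ s → s ≤ 10 → Co P β (a s) (Φ (L s)))
    (hT : ∀ s t : ℚ, s < t → ∃ T ∈ fam3 lam, (T ∩ L s).Nonempty ∧ (T ∩ L t).Nonempty ∧
      ∀ u, (u < s ∨ t < u) → ¬ (T ∩ L u).Nonempty) :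
    ∃ ε : ℝ, (ε = 1 ∨ ε = -1) ∧ ∀ s t : ℚ, -5 ≤ s → s < t → t ≤ 5 → 0 < ε * (a t - a s) := by
  have B : ∀ s t u : ℚ, -10 ≤ s → s < t → t ≤ 10 → -10 ≤ u → u ≤ 10 → (u < s ∨ t < u) →
      0 < (a s - a u) * (a t - a u) := by
    intro s t u h1 h2 h3 h4 h5 h6
    obtain ⟨T, hTf, m1, m2, dj⟩ := hT s t h2
    obtain ⟨z1, hz1, hz1'⟩ := R.meet' hl0 hl1 hTf (hL s) m1
    obtain ⟨z2, hz2, hz2'⟩ := R.meet' hl0 hl1 hTf (hL t) m2
    have hd := R.disj' hTf (hL u) (dj u h6)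
    have b1 : ‖z1‖ ≤ 1 := by simpa using R.sub hTf hz1
    have b2 : ‖z2‖ ≤ 1 := by simpa using R.sub hTf hz2
    exact test hP (R.convex hTf) (R.sub hTf) (ha u h4 h5) hd hz1 hz2
      ((ha s h1 (by linarith) z1 b1).mp hz1') ((ha t (by linarith) h3 z2 b2).mp hz2')
  have main : ∀ s t : ℚ, -5 ≤ s → s < t → t ≤ 5 → 0 < (a t - a s) * (a 6 - a (-6)) := by
    intro s t h1 h2 h3
    have k1 := B t 6 s (by linarith) (by linarith) (by norm_num) (by linarith) (by linarith)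
      (Or.inl h2)
    have k2 := B (-6) s 6 (by norm_num) (by linarith) (by linarith) (by norm_num) (by norm_num)
      (Or.inr (by linarith))
    have k3 : 0 < ((a t - a s) * (a 6 - a s)) * ((a (-6) - a 6) * (a s - a 6)) := mul_pos k1 k2
    have e : ((a t - a s) * (a 6 - a s)) * ((a (-6) - a 6) * (a s - a 6)) =
        (a 6 - a s) ^ 2 * ((a t - a s) * (a 6 - a (-6))) := by ring
    rw [e] at k3
    by_contra hneg
    push Not at hneg
    have := mul_nonpos_of_nonneg_of_nonpos (sq_nonneg (a 6 - a s)) hneg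
    linarith
  rcases lt_or_ge 0 (a 6 - a (-6)) with hX | hX
  · refine ⟨1, Or.inl rfl, fun s t h1 h2 h3 => ?_⟩
    have := main s t h1 h2 h3
    rw [one_mul]
    exact (mul_pos_iff_of_pos_right hX).mp this
  · refine ⟨-1, Or.inr rfl, fun s t h1 h2 h3 => ?_⟩
    have := main s t h1 h2 h3
    nlinarith

/-- The comparison of two increments with the help of one circle. -/
lemma cmp_gen (R : Rg lam Φ) (hl0 : 0 < lam) (hl1 : lam < 1) (hP : ‖P‖ = 1)
    {β β' : E} (hβ : ‖β‖ = 1) (hβP : inner ℝ P β = 0) (hβ' : ‖β'‖ = 1) (hβP' : inner ℝ P β' = 0)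
    {Ls Lt Ms Mm Mt T : Set E3} (fs : Ls ∈ fam3 lam) (ft : Lt ∈ fam3 lam) (gs : Ms ∈ fam3 lam)
    (gm : Mm ∈ fam3 lam) (gt : Mt ∈ fam3 lam) (hT : T ∈ fam3 lam) {x y x' m' y' : ℝ}
    (cs : Co P β x (Φ Ls)) (ct : Co P β y (Φ Lt))
    (ds : Co P β' x' (Φ Ms)) (dm : Co P β' m' (Φ Mm)) (dt : Co P β' y' (Φ Mt))
    (h1 : (T ∩ Ls).Nonempty) (h2 : (T ∩ Lt).Nonempty) (h3 : ¬ (T ∩ Ms).Nonempty)
    (h4 : ¬ (T ∩ Mt).Nonempty) (h5 : (T ∩ Mm).Nonempty) {ε : ℝ} (hε : ε = 1 ∨ ε = -1)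
    (s1 : 0 < ε * (m' - x')) (s2 : 0 < ε * (y' - m')) : |y - x| ≤ ε * (y' - x') := by
  obtain ⟨n, h, hn, h0, hh1, hs⟩ := R.normal hl0 hl1 hT
  have D3 := R.disj' hT gs h3
  have D4 := R.disj' hT gt h4
  have hPT : P ∉ Φ T := fun hc => D3 ⟨P, hc, ds.P_mem hP⟩
  obtain ⟨r, hr, hext⟩ := extent hP hn h0 hh1 (hs ▸ hPT)
  obtain ⟨c, hc, -, -⟩ := hext β hβ hβP
  obtain ⟨c', -, ⟨zp, hzp, hzp'⟩, ⟨zm, hzm, hzm'⟩⟩ := hext β' hβ' hβP'
  rw [← hs] at hc hzp hzm
  have bd1 : ∀ z ∈ Φ T, ‖z‖ ≤ 1 := fun z hz => by simpa using R.sub hT hz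
  have ne1 : ∀ z ∈ Φ T, z ≠ P := fun z hz hzP => hPT (hzP ▸ hz)
  obtain ⟨z1, hz1, hz1'⟩ := R.meet' hl0 hl1 hT fs h1
  obtain ⟨z2, hz2, hz2'⟩ := R.meet' hl0 hl1 hT ft h2
  obtain ⟨z5, hz5, hz5'⟩ := R.meet' hl0 hl1 hT gm h5
  have e1 := cs.yc hP (bd1 z1 hz1) hz1' (ne1 z1 hz1)
  have e2 := ct.yc hP (bd1 z2 hz2) hz2' (ne1 z2 hz2)
  have f1 := hc z1 hz1
  have f2 := hc z2 hz2
  rw [e1] at f1
  rw [e2] at f2
  have hle : |y - x| ≤ 2 * r := by
    have : y - x = (y - c) - (x - c) := by ring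
    rw [this]
    have := abs_sub (y - c) (x - c)
    linarith
  have conv : ∀ z ∈ Φ T, ∀ w : ℝ, Yc P β' z = w → inner ℝ β' (z - P) = w * inner ℝ P (z - P) := by
    intro z hz w hw
    have hn' := (inner_sub_neg hP (bd1 z hz) (ne1 z hz)).ne
    rw [← hw, Yc]
    field_simp
  have g5 := (dm z5 (bd1 z5 hz5)).mp hz5'
  have gp := conv zp hzp _ hzp'
  have gmm := conv zm hzm _ hzm'
  have t1 := test hP (R.convex hT) (R.sub hT) ds D3 hz5 hzp g5 gp
  have t2 := test hP (R.convex hT) (R.sub hT) ds D3 hz5 hzm g5 gmm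
  have t3 := test hP (R.convex hT) (R.sub hT) dt D4 hz5 hzp g5 gp
  have t4 := test hP (R.convex hT) (R.sub hT) dt D4 hz5 hzm g5 gmm
  refine hle.trans ?_
  rcases hε with rfl | rfl
  · rw [one_mul] at s1 s2 ⊢
    have u2 := (mul_pos_iff_of_pos_left s1).mp t2
    have u3 : c' + r - y' < 0 := by
      by_contra hcon
      push Not at hcon
      have : m' - y' < 0 := by linarith
      nlinarith
    linarith
  · have s1' : m' - x' < 0 := by linarith
    have s2' : 0 < m' - y' := by linarith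
    have u4 := (mul_pos_iff_of_pos_left s2').mp t4
    have u1 : c' + r - x' < 0 := by
      by_contra hcon
      push Not at hcon
      nlinarith
    linarith

lemma eps_le {ε x : ℝ} (hε : ε = 1 ∨ ε = -1) : ε * x ≤ |x| := by
  rcases hε with rfl | rfl
  · rw [one_mul]; exact le_abs_self x
  · have := neg_abs_le x; linarith

/-- The coordinates of the vertical lines form an arithmetic progression. -/
lemma progression (R : Rg lam Φ) (hl0 : 0 < lam) (hl1 : lam < 1) (hP : ‖P‖ = 1)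
    {βV βH : E} {a b : ℚ → ℝ} (n1 : ‖βV‖ = 1) (o1 : inner ℝ P βV = 0) (n2 : ‖βH‖ = 1)
    (o2 : inner ℝ P βH = 0)
    (ha : ∀ s : ℚ, -10 ≤ s → s ≤ 10 → Co P βV (a s) (Φ (VL s)))
    (hb : ∀ s : ℚ, -10 ≤ s → s ≤ 10 → Co P βH (b s) (Φ (HL s))) (N : ℕ) (hN : 0 < N) (i : ℕ)
    (hi : i ≤ N) : a ((i : ℚ) / N) = a 0 + (i : ℝ) / N * (a 1 - a 0) := by
  obtain ⟨ε, hε, hmV⟩ := mono_gen R hl0 hl1 hP (VL_fam lam) ha (by
    intro s t hst
    have hst' : (s : ℝ) < t := by exact_mod_cast hst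
    refine ⟨circ (((s + t) / 2 : ℚ) : ℝ) ((0 : ℚ) : ℝ) (((t - s) / 2 : ℚ) : ℝ),
      circ_fam _ _ _ _ (by linarith), ?_, ?_, ?_⟩
    · unfold VL; rw [circV]; push_cast; nlinarith
    · unfold VL; rw [circV]; push_cast; nlinarith
    · intro u hu
      unfold VL; rw [circV]; push_cast
      rcases hu with hu | hu
      · have hu' : (u : ℝ) < s := by exact_mod_cast hu
        nlinarith
      · have hu' : (t : ℝ) < u := by exact_mod_cast hu
        nlinarith)
  obtain ⟨ε', hε', hmH⟩ := mono_gen R hl0 hl1 hP (HL_fam lam) hb (by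
    intro s t hst
    have hst' : (s : ℝ) < t := by exact_mod_cast hst
    refine ⟨circ ((0 : ℚ) : ℝ) (((s + t) / 2 : ℚ) : ℝ) (((t - s) / 2 : ℚ) : ℝ),
      circ_fam _ _ _ _ (by linarith), ?_, ?_, ?_⟩
    · unfold HL; rw [circH]; push_cast; nlinarith
    · unfold HL; rw [circH]; push_cast; nlinarith
    · intro u hu
      unfold HL; rw [circH]; push_cast
      rcases hu with hu | hu
      · have hu' : (u : ℝ) < s := by exact_mod_cast hu
        nlinarith
      · have hu' : (t : ℝ) < u := by exact_mod_cast hu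
        nlinarith)
  have K : ∀ s t s' t' : ℚ, -4 ≤ s → s < t → t ≤ 4 → -4 ≤ s' → s' < t' → t' ≤ 4 →
      t - s < t' - s' → |a t - a s| ≤ ε' * (b t' - b s') := by
    intro s t s' t' h1 h2 h3 h4 h5 h6 h7
    have h2' : (s : ℝ) < t := by exact_mod_cast h2
    have h5' : (s' : ℝ) < t' := by exact_mod_cast h5
    have h7' : (t : ℝ) - s < t' - s' := by exact_mod_cast h7
    refine cmp_gen R hl0 hl1 hP n1 o1 n2 o2 (T := circ (((s + t) / 2 : ℚ) : ℝ)
      (((s' + t') / 2 : ℚ) : ℝ) (((t - s) / 2 : ℚ) : ℝ)) (VL_fam lam s) (VL_fam lam t)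
      (HL_fam lam s') (HL_fam lam ((s' + t') / 2)) (HL_fam lam t')
      (circ_fam _ _ _ _ (by linarith)) (ha s (by linarith) (by linarith))
      (ha t (by linarith) (by linarith)) (hb s' (by linarith) (by linarith))
      (hb _ (by linarith) (by linarith)) (hb t' (by linarith) (by linarith)) ?_ ?_ ?_ ?_ ?_ hε'
      (hmH _ _ (by linarith) (by linarith) (by linarith))
      (hmH _ _ (by linarith) (by linarith) (by linarith))
    · unfold VL; rw [circV]; push_cast; nlinarith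
    · unfold VL; rw [circV]; push_cast; nlinarith
    · unfold HL; rw [circH]; push_cast; nlinarith
    · unfold HL; rw [circH]; push_cast; nlinarith
    · unfold HL; rw [circH]; push_cast; nlinarith
  have K' : ∀ s t s' t' : ℚ, -4 ≤ s → s < t → t ≤ 4 → -4 ≤ s' → s' < t' → t' ≤ 4 →
      t - s < t' - s' → |b t - b s| ≤ ε * (a t' - a s') := by
    intro s t s' t' h1 h2 h3 h4 h5 h6 h7
    have h2' : (s : ℝ) < t := by exact_mod_cast h2
    have h5' : (s' : ℝ) < t' := by exact_mod_cast h5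
    have h7' : (t : ℝ) - s < t' - s' := by exact_mod_cast h7
    refine cmp_gen R hl0 hl1 hP n2 o2 n1 o1 (T := circ (((s' + t') / 2 : ℚ) : ℝ)
      (((s + t) / 2 : ℚ) : ℝ) (((t - s) / 2 : ℚ) : ℝ)) (HL_fam lam s) (HL_fam lam t)
      (VL_fam lam s') (VL_fam lam ((s' + t') / 2)) (VL_fam lam t')
      (circ_fam _ _ _ _ (by linarith)) (hb s (by linarith) (by linarith))
      (hb t (by linarith) (by linarith)) (ha s' (by linarith) (by linarith))
      (ha _ (by linarith) (by linarith)) (ha t' (by linarith) (by linarith)) ?_ ?_ ?_ ?_ ?_ hε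
      (hmV _ _ (by linarith) (by linarith) (by linarith))
      (hmV _ _ (by linarith) (by linarith) (by linarith))
    · unfold HL; rw [circH]; push_cast; nlinarith
    · unfold HL; rw [circH]; push_cast; nlinarith
    · unfold VL; rw [circV]; push_cast; nlinarith
    · unfold VL; rw [circV]; push_cast; nlinarith
    · unfold VL; rw [circV]; push_cast; nlinarith
  have hc : Cmp (fun s => ε * a s) := by
    intro s t s' t' h1 h2 h3 h4 h5 h6 h7
    have k1 := K s t 0 (((t - s) + (t' - s')) / 2) (by linarith) h2 (by linarith) (by norm_num)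
      (by linarith) (by linarith) (by linarith)
    have k2 := K' 0 (((t - s) + (t' - s')) / 2) s' t' (by norm_num) (by linarith) (by linarith)
      (by linarith) h5 (by linarith) (by linarith)
    have k3 := eps_le (x := a t - a s) hε
    have k4 := eps_le (x := b (((t - s) + (t' - s')) / 2) - b 0) hε'
    show ε * a t - ε * a s ≤ ε * a t' - ε * a s'
    linarith
  have h := hc.affine N hN i hi
  rcases hε with rfl | rfl
  · simpa using h
  · linarith

/-- The coordinate of the line `x = lam` lies between those of rational lines. -/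
lemma gbetween (R : Rg lam Φ) (hl0 : 0 < lam) (hl1 : lam < 1) (hP : ‖P‖ = 1)
    {βV : E} {a : ℚ → ℝ} {al : ℝ}
    (ha : ∀ s : ℚ, -10 ≤ s → s ≤ 10 → Co P βV (a s) (Φ (VL s)))
    (hal : Co P βV al (Φ (line 1 0 lam)))
    (s t : ℚ) (hs : 0 ≤ s) (ht : t ≤ 1) (h1 : (s : ℝ) < lam) (h2 : lam < t) :
    0 < (a s - a t) * (al - a t) ∧ 0 < (al - a s) * (a t - a s) := by
  have hst : (s : ℝ) < t := h1.trans h2
  have hst' : s < t := by exact_mod_cast hst
  have cs := ha s (by linarith) (by linarith)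
  have ct := ha t (by linarith) (by linarith)
  constructor
  · obtain ⟨m, hm1, hm2⟩ := exists_rat_btwn h2
    have hT : circ ((((s + m) / 2 : ℚ)) : ℝ) ((0 : ℚ) : ℝ) (((m - s) / 2 : ℚ) : ℝ) ∈ fam3 lam := by
      apply circ_fam
      have : (s : ℝ) < m := h1.trans hm1
      have : s < m := by exact_mod_cast this
      linarith
    push_cast at hT
    obtain ⟨z1, hz1, hz1'⟩ := R.meet' hl0 hl1 hT (VL_fam lam s)
      (meet_V_T le_rfl (h1.trans hm1).le)
    obtain ⟨z2, hz2, hz2'⟩ := R.meet' hl0 hl1 hT (lam_fam lam)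
      (meet_V_T h1.le hm1.le)
    have hd := R.disj' hT (VL_fam lam t) (disj_V_T (by
      have : (s : ℝ) - t < 0 := by linarith
      have : (m : ℝ) - t < 0 := by linarith
      nlinarith))
    have b1 : ‖z1‖ ≤ 1 := by simpa using R.sub hT hz1
    have b2 : ‖z2‖ ≤ 1 := by simpa using R.sub hT hz2
    exact test hP (R.convex hT) (R.sub hT) ct hd hz1 hz2 ((cs z1 b1).mp hz1')
      ((hal z2 b2).mp hz2')
  · obtain ⟨m, hm1, hm2⟩ := exists_rat_btwn h1
    have hT : circ ((((m + t) / 2 : ℚ)) : ℝ) ((0 : ℚ) : ℝ) (((t - m) / 2 : ℚ) : ℝ) ∈ fam3 lam := by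
      apply circ_fam
      have : (m : ℝ) < t := hm2.trans h2
      have : m < t := by exact_mod_cast this
      linarith
    push_cast at hT
    obtain ⟨z1, hz1, hz1'⟩ := R.meet' hl0 hl1 hT (VL_fam lam t)
      (meet_V_T (hm2.trans h2).le le_rfl)
    obtain ⟨z2, hz2, hz2'⟩ := R.meet' hl0 hl1 hT (lam_fam lam)
      (meet_V_T hm2.le h2.le)
    have hd := R.disj' hT (VL_fam lam s) (disj_V_T (by
      have : 0 < (m : ℝ) - s := by linarith
      have : 0 < (t : ℝ) - s := by linarith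
      nlinarith))
    have b1 : ‖z1‖ ≤ 1 := by simpa using R.sub hT hz1
    have b2 : ‖z2‖ ≤ 1 := by simpa using R.sub hT hz2
    exact test hP (R.convex hT) (R.sub hT) cs hd hz2 hz1 ((hal z2 b2).mp hz2')
      ((ct z1 b1).mp hz1')

/-- **Rigidity**: in every realisation the three sections `Φ(x=0)`, `Φ(x=1)`, `Φ(x=lam)`
determine `lam`. -/
lemma gmain (R : Rg lam Φ) (hl0 : 0 < lam) (hl1 : lam < 1) (hirr : Irrational lam)
    (σ : E) (c : ℝ) (hσ : Φ (VL 0) = sec σ c) :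
    ∃ (P : E) (A : ℝ), ‖P‖ = 1 ∧ A ≠ 0 ∧ P ∈ Φ (VL 0) ∧ P ∈ Φ (VL 1) ∧
      (∀ z ∈ Φ (VL 0), z ∈ Φ (VL 1) → z = P) ∧
      (∀ z ∈ Φ (VL 1), inner ℝ σ (z - P) = A * inner ℝ P (z - P)) ∧
      (∀ z ∈ Φ (line 1 0 lam), inner ℝ σ (z - P) = lam * A * inner ℝ P (z - P)) ∧
      (∃ z ∈ Φ (VL 1), z ≠ P) ∧ (∃ z ∈ Φ (line 1 0 lam), z ≠ P) := by
  obtain ⟨P, φ, hP, hφ, hlim⟩ := R.exists_P hl0 hl1
  have D : GData Φ P φ := ⟨hP, hφ, hlim⟩
  obtain ⟨βV, βH, a, b, al, x0, y0, n1, o1, n2, o2, ha, hb, hal, hy0, hxy⟩ :=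
    coords R hl0 hl1 D σ c hσ
  have hap := fun N hN i hi => progression R hl0 hl1 hP n1 o1 n2 o2 ha hb N hN i hi
  have hbt := fun s t h1 h2 h3 h4 => gbetween R hl0 hl1 hP ha hal s t h1 h2 h3 h4
  have hale := al_eq hl0 hl1 hirr hap hbt
  have c0 := ha 0 (by norm_num) (by norm_num)
  have c1 := ha 1 (by norm_num) (by norm_num)
  have ha01 : a 1 - a 0 ≠ 0 := by
    intro h
    have h' : a 1 = a 0 := by linarith
    rw [h'] at c1
    have := co_unique c0 c1 (R.sub (VL_fam _ _)) (R.sub (VL_fam _ _))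
    refine R.inj _ (VL_fam _ _) _ (VL_fam _ _) ?_ this
    exact VL_ne (by norm_num)
  have hx0 : x0 = a 0 := by
    obtain ⟨z, hz, hzP⟩ := g_ne_P R hl0 hl1 P (VL_fam lam 0)
      (V_Yb (s := ((0 : ℚ) : ℝ)) (by norm_num) (by norm_num))
    have hzb : ‖z‖ ≤ 1 := by simpa using R.sub (VL_fam lam 0) hz
    have h1 := (c0 z hzb).mp hz
    have h2 := inner_sub_neg hP hzb hzP
    have hPs := c0.P_mem hP
    rw [hσ] at hz hPs
    have h3 : inner ℝ σ (z - P) = 0 := by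
      rw [inner_sub_right, (mem_sec.mp hz).2, (mem_sec.mp hPs).2, sub_self]
    rw [hxy, inner_add_left, inner_smul_left, inner_smul_left, h3] at h1
    simp only [conj_trivial, mul_zero, add_zero] at h1
    exact mul_right_cancel₀ h2.ne h1
  have hform : ∀ z x, inner ℝ βV (z - P) = x * inner ℝ P (z - P) →
      inner ℝ σ (z - P) = (x - a 0) / y0 * inner ℝ P (z - P) := by
    intro z x h
    rw [hxy, inner_add_left, inner_smul_left, inner_smul_left] at h
    simp only [conj_trivial] at h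
    rw [hx0] at h
    field_simp
    linarith
  refine ⟨P, (a 1 - a 0) / y0, hP, div_ne_zero ha01 hy0, c0.P_mem hP, c1.P_mem hP, ?_, ?_, ?_,
    ?_, ?_⟩
  · intro z hz hz'
    by_contra hne
    have hzb : ‖z‖ ≤ 1 := by simpa using R.sub (VL_fam lam 0) hz
    have h1 := (c0 z hzb).mp hz
    have h2 := (c1 z hzb).mp hz'
    have h3 := inner_sub_neg hP hzb hne
    rw [h1] at h2
    have := mul_right_cancel₀ h3.ne h2
    exact ha01 (by linarith)
  · intro z hz
    have hzb : ‖z‖ ≤ 1 := by simpa using R.sub (VL_fam lam 1) hz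
    exact hform z _ ((c1 z hzb).mp hz)
  · intro z hz
    have hzb : ‖z‖ ≤ 1 := by simpa using R.sub (lam_fam lam) hz
    have := hform z _ ((hal z hzb).mp hz)
    rw [this, hale]
    ring
  · exact g_ne_P R hl0 hl1 P (VL_fam lam 1)
      (V_Yb (s := ((1 : ℚ) : ℝ)) (by norm_num) (by norm_num))
  · exact g_ne_P R hl0 hl1 P (lam_fam lam) (V_Yb (by linarith) (by linarith))

/-- Two realisations with the same three sections belong to the same parameter. -/
theorem grigid {lam lam' : ℝ} {Φ Φ' : Set E3 → Set E} (R : Rg lam Φ) (R' : Rg lam' Φ')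
    (hl0 : 0 < lam) (hl1 : lam < 1) (hirr : Irrational lam)
    (hl0' : 0 < lam') (hl1' : lam' < 1) (hirr' : Irrational lam')
    (h0 : Φ (VL 0) = Φ' (VL 0)) (h1 : Φ (VL 1) = Φ' (VL 1))
    (h2 : Φ (line 1 0 lam) = Φ' (line 1 0 lam')) : lam = lam' := by
  obtain ⟨σ, c, -, hσ⟩ := R.isSec _ (VL_fam lam 0)
  obtain ⟨P, A, hP, hA, p0, p1, pu, e1, e2, ⟨z1, hz1, hz1P⟩, ⟨z2, hz2, hz2P⟩⟩ :=
    gmain R hl0 hl1 hirr σ c hσ
  obtain ⟨P', A', hP', hA', p0', p1', pu', e1', e2', -, -⟩ :=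
    gmain R' hl0' hl1' hirr' σ c (h0 ▸ hσ)
  have hPP : P' = P := by
    apply pu
    · rw [h0]; exact p0'
    · rw [h1]; exact p1'
  subst hPP
  have b1 : ‖z1‖ ≤ 1 := by simpa using R.sub (VL_fam lam 1) hz1
  have b2 : ‖z2‖ ≤ 1 := by simpa using R.sub (lam_fam lam) hz2
  have n1 := (inner_sub_neg hP b1 hz1P).ne
  have n2 := (inner_sub_neg hP b2 hz2P).ne
  have hAA : A = A' := by
    have u1 := e1 z1 hz1
    have u2 := e1' z1 (h1 ▸ hz1)
    rw [u1] at u2
    exact mul_right_cancel₀ n1 u2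
  subst hAA
  have u1 := e2 z2 hz2
  have u2 := e2' z2 (h2 ▸ hz2)
  rw [u1] at u2
  exact mul_right_cancel₀ hA (mul_right_cancel₀ n2 u2)

end Pool.Agent.KS6_33.SG
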