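import Mathlib
import Pool.Agent.KS6_33.SG.Main
import Pool.Agent.KS6_33.SG.Lift

/-!
# No countable family of sphere graphs of any dimensions contains all 2-sphere graphs
-/

namespace Pool.Agent.KS6_33.SG

open Pool.Agent.V11167.Sph

/-- The parameters `lam` whose graph is an induced subgraph of a given countable sphere graph. -/
lemma countable_params {d : ℕ} {V : Type} [Countable V] {U : SimpleGraph V}
    (hU : IsSphereGraph d U) :
    {lam : ℝ | (0 < lam ∧ lam < 1 ∧ Irrational lam) ∧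
      Nonempty (interGraph (fam3 lam) ↪g U)}.Countable := by
  classical
  obtain ⟨F, hF, ⟨e⟩⟩ := hU
  set I : Set ℝ := {lam : ℝ | (0 < lam ∧ lam < 1 ∧ Irrational lam) ∧
      Nonempty (interGraph (fam3 lam) ↪g U)} with hI
  let f : ∀ lam : I, interGraph (fam3 lam.1) ↪g U := fun lam => lam.2.2.some
  set Ψ : I → Set E3 → Set (EuclideanSpace ℝ (Fin (d + 1))) := fun lam A =>
    if h : A ∈ fam3 lam.1 then (e (f lam ⟨A, h⟩)).1 else ∅ with hΨ
  have hΨe : ∀ (lam : I) A (h : A ∈ fam3 lam.1), Ψ lam A = (e (f lam ⟨A, h⟩)).1 := by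
    intro lam A h
    simp only [hΨ, h, dite_true]
  have hinj : ∀ (lam : I) A B (hA : A ∈ fam3 lam.1) (hB : B ∈ fam3 lam.1), A ≠ B →
      e (f lam ⟨A, hA⟩) ≠ e (f lam ⟨B, hB⟩) := by
    intro lam A B hA hB hne h
    have h1 := (f lam).injective (e.injective h)
    exact hne (congrArg Subtype.val h1)
  have hRg : ∀ lam : I, Rg lam.1 (Ψ lam) := by
    intro lam
    refine ⟨?_, ?_, ?_, ?_⟩
    · intro A hA
      rw [hΨe lam A hA]
      obtain ⟨n, c, hn, hs⟩ := hF (e (f lam ⟨A, hA⟩)).2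
      exact ⟨n, c, hn, hs⟩
    · intro A hA B hB hne h
      rw [hΨe lam A hA, hΨe lam B hB] at h
      exact hinj lam A B hA hB hne (Subtype.ext h)
    · intro A hA B hB hne h
      rw [hΨe lam A hA, hΨe lam B hB]
      have hadj : (interGraph (fam3 lam.1)).Adj ⟨A, hA⟩ ⟨B, hB⟩ :=
        ⟨fun h' => hne (congrArg Subtype.val h'), h⟩
      have h1 := (f lam).map_rel_iff.mpr hadj
      have h2 := e.map_rel_iff.mpr h1
      exact h2.2
    · intro A hA B hB hne h h'
      rw [hΨe lam A hA, hΨe lam B hB] at h'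
      have h2 : (interGraph F).Adj (e (f lam ⟨A, hA⟩)) (e (f lam ⟨B, hB⟩)) :=
        ⟨hinj lam A B hA hB hne, h'⟩
      have h1 := e.map_rel_iff.mp h2
      have h0 := (f lam).map_rel_iff.mp h1
      exact h h0.2
  let g : I → V × V × V := fun lam =>
    (f lam ⟨VL 0, VL_fam _ _⟩, f lam ⟨VL 1, VL_fam _ _⟩, f lam ⟨line 1 0 lam.1, lam_fam _⟩)
  have hg : Function.Injective g := by
    intro x y hxy
    have hxy' := Prod.ext_iff.mp hxy
    have hxy'' := Prod.ext_iff.mp hxy'.2
    have k0 : Ψ x (VL 0) = Ψ y (VL 0) := by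
      rw [hΨe x _ (VL_fam _ _), hΨe y _ (VL_fam _ _)]
      exact congrArg (fun v => (e v).1) hxy'.1
    have k1 : Ψ x (VL 1) = Ψ y (VL 1) := by
      rw [hΨe x _ (VL_fam _ _), hΨe y _ (VL_fam _ _)]
      exact congrArg (fun v => (e v).1) hxy''.1
    have k2 : Ψ x (line 1 0 x.1) = Ψ y (line 1 0 y.1) := by
      rw [hΨe x _ (lam_fam _), hΨe y _ (lam_fam _)]
      exact congrArg (fun v => (e v).1) hxy''.2
    exact Subtype.ext (grigid (hRg x) (hRg y) x.2.1.1 x.2.1.2.1 x.2.1.2.2 y.2.1.1 y.2.1.2.1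
      y.2.1.2.2 k0 k1 k2)
  exact Set.countable_coe_iff.mp hg.countable

/-- For every countable family of countable sphere graphs, of any dimensions, there is a countable
graph which is an `e`-sphere graph for all `e ≥ 2` and is an induced subgraph of none of them. -/
theorem no_family (I : Type) [Countable I] (d : I → ℕ) (V : I → Type) [∀ i, Countable (V i)]
    (U : ∀ i, SimpleGraph (V i)) (hU : ∀ i, IsSphereGraph (d i) (U i)) :
    ∃ (W : Type) (_ : Countable W) (G : SimpleGraph W), (∀ e, 2 ≤ e → IsSphereGraph e G) ∧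
      ∀ i, IsEmpty (G ↪g U i) := by
  by_contra hcon
  push Not at hcon
  have hc : (⋃ i, {lam : ℝ | (0 < lam ∧ lam < 1 ∧ Irrational lam) ∧
      Nonempty (interGraph (fam3 lam) ↪g U i)}).Countable :=
    Set.countable_iUnion fun i => countable_params (hU i)
  refine not_countable_irr (hc.mono ?_)
  intro lam hlam
  have hcf : Countable (fam3 lam) := (fam3_countable lam).to_subtype
  obtain ⟨i, hi⟩ := hcon (fam3 lam) hcf (interGraph (fam3 lam))
    (fun e he => lift_dim he ⟨fam3 lam, fam3_discs lam, ⟨RelIso.refl _⟩⟩)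
  exact Set.mem_iUnion.mpr ⟨i, hlam, by simpa using hi⟩

/-- There is no strongly universal countable `d`-sphere graph, for any `d ≥ 2`. -/
theorem no_universal_all (d : ℕ) (hd : 2 ≤ d) : ¬ HasStronglyUniversal d := by
  rintro ⟨V, hV, U, hU, hall⟩
  obtain ⟨W, hW, G, hG, hemp⟩ := no_family Unit (fun _ => d) (fun _ => V) (fun _ => U)
    (fun _ => hU)
  exact (hemp ()).false (hall W hW G (hG d hd)).some

end Pool.Agent.KS6_33.SG
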